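import Pool.Agent.H.MP_67b4ec_an.B

namespace Pool.Agent.Results.MP_67b4ec_an.No
open Pool.Agent.H.MP_67b4ec_an

def IsAdj {X Y Z : Type} [NormedAddCommGroup X] [NormedSpace ℂ X] [NormedAddCommGroup Y]
    [NormedSpace ℂ Y] (c : Z → Y → X) (d : StrongDual ℂ X → Z → StrongDual ℂ Y) : Prop :=
  ∀ f z y, d f z y = f (c z y)

def RadSqNe {B : Type} [Add B] (p : B → B → B) : Prop :=
  ∃ (R : Type) (_ : Ring R) (e : R ≃+ B), (∀ x y, e (x * y) = p (e x) (e y)) ∧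
    ∃ Φ Ψ : R, Φ ∈ Ring.jacobson R ∧ Ψ ∈ Ring.jacobson R ∧ Φ * Ψ ≠ 0

def IsArens {A : Type} [NormedAddCommGroup A] [NormedSpace ℂ A] (c : A → A → A)
    (p : StrongDual ℂ (StrongDual ℂ A) → StrongDual ℂ (StrongDual ℂ A) →
      StrongDual ℂ (StrongDual ℂ A)) : Prop :=
  ∃ (d1 : StrongDual ℂ A → A → StrongDual ℂ A)
    (d2 : StrongDual ℂ (StrongDual ℂ A) → StrongDual ℂ A → StrongDual ℂ A),
    IsAdj c d1 ∧ IsAdj d1 d2 ∧ IsAdj d2 p

def BidualRadSqNe {A : Type} [NormedAddCommGroup A] [NormedSpace ℂ A] (c : A → A → A) : Prop :=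
  ∃ p, IsArens c p ∧ RadSqNe p

theorem result : BidualRadSqNe conv0 :=
  ⟨arens, ⟨fun f a => dotA f a, fun Ψ f => dotB Ψ f, fun _ _ _ => rfl, fun _ _ _ => rfl,
    fun _ _ _ => rfl⟩, Bidual, inferInstance, AddEquiv.refl _, fun _ _ => rfl, main⟩

end Pool.Agent.Results.MP_67b4ec_an.No
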